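import Pool.Agent.Lib.MP_5290c5_lc.Spector

namespace Pool.Agent.Results.MP_5290c5_lc.ProperJumpDegree

open Pool.Agent.Lib.MP_5290c5_lc

/-- Check of the definition of the jump against Mathlib's oracle computability: a set is the
domain of a function recursive in `X` if and only if it is many-one reducible to `jump X`. -/
theorem jump_spec (X : ℕ → Bool) (p : ℕ → Prop) :
    (∃ f : ℕ →. ℕ, TuringReducible f (chi X) ∧ ∀ n, (f n).Dom ↔ p n) ↔
      ∃ (c : ℕ) (g : ℕ → ℕ), (∀ n, g n ∈ phi c n) ∧ ∀ n, p n ↔ jump X (g n) ≠ false := by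
  constructor
  · rintro ⟨f, hf, e⟩
    obtain ⟨F, hF, h⟩ := Pool.Agent.Shared.Oracle.use_principle (RecursiveIn.iff_nat.1 hf)
    have h1 : SigIn X p := by
      refine ⟨fun n A => ∃ k, (F (Pool.Agent.Shared.Oracle.seg A k) n).Dom,
        ⟨fun x => (F x.2 x.1).Dom, ?_, fun _ _ => Iff.rfl⟩, fun n => ?_⟩
      · exact Partrec.dom_re (hF.partrec.comp Computable.snd Computable.fst)
      · rw [← e, Part.dom_iff_mem]
        simp only [h, Part.dom_iff_mem]
        exact exists_comm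
    obtain ⟨g, hg, e'⟩ := h1.index
    obtain ⟨c, hc⟩ := Nat.Partrec.Code.exists_code.1 (Partrec.nat_iff.1 hg)
    exact ⟨Encodable.encode c, g, fun n => by simp [phi, hc], fun n => by simp [← e' n]⟩
  · rintro ⟨c, g, hc, e⟩
    have hg : Computable g :=
      (Partrec.nat_iff.2 (Nat.Partrec.Code.exists_code.2 ⟨_, rfl⟩)).of_eq_tot hc
    obtain ⟨q, hq, e'⟩ := (((Sig.jmp hg).sigIn X).congr (q := p) fun n => by simp [e n]).nf
    refine ⟨fun n => Nat.rfind fun k => Part.some (q n k),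
      Pool.Agent.Shared.Oracle.rec_rfind hq, fun n => ?_⟩
    rw [e', Nat.rfind_dom]
    simp

theorem result (α : Ordinal.{0}) (hα : 2 < α) (hcomp : ∃ a, Denotes a α) :
    ∃ (G : Type) (_ : AddCommGroup G), Nonempty (G ≃ ℕ) ∧
      (∀ (n : ℕ) (g : G), 1 ≤ n → g ≠ 0 → n • g ≠ 0) ∧
      (∀ a, Denotes a α → ∃ Z, IsH (fun _ => false) a Z ∧ IsLeast (JumpSp G a) (degree Z)) ∧
      ∀ β < α, ∀ b, Denotes b β → ¬ ∃ d, IsLeast (JumpSp G b) d := by
  obtain ⟨a, ha⟩ := hcomp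
  obtain ⟨G, h1, h2⟩ := good (four_lt ha.inO (ha.eq ▸ hα))
  refine ⟨G, inferInstance, ((mem_jumpSp ha.inO).1 h1.1).elim fun ν _ => ⟨ν⟩,
    fun n g hn hg => smul_ne_zero (by omega) hg, fun a' ha' => ⟨_, ha'.inO.isH _, ?_⟩,
    fun β hβ b hb => ?_⟩
  · have h3 := ha'.eq.trans ha.eq.symm
    rw [jumpSp_eq G ha'.inO ha.inO h3, degree_H _ ha'.inO ha.inO h3]
    exact h1
  · obtain ⟨b', h3, h4⟩ := ha.inO.exists_below (ha.eq ▸ hβ)
    rw [jumpSp_eq G hb.inO h3.left (hb.eq.trans h4.symm)]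
    exact h2 b' h3

end Pool.Agent.Results.MP_5290c5_lc.ProperJumpDegree
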